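import Pool.Agent.H.MP_6cdbe4_gt.A

set_option autoImplicit false

namespace Pool.Agent.Results.MP_6cdbe4_gt.No

open Pool.Agent.H.MP_6cdbe4_gt

/-- For every `n ≥ 1` the functor `SP^n` has two distinct extensions onto the Kleisli category of
the monad of finitely supported max-min measures on ultrametric spaces. -/
theorem result (n : ℕ) (hn : 1 ≤ n) : ∃ E E' : Extension n, E ≠ E' :=
  ⟨E1 n, E2 n, ne n hn⟩

end Pool.Agent.Results.MP_6cdbe4_gt.No
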